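import Pool.Agent.Helper63.GW.StA

/-!
# Project GW: statements, part B (window functional, tuples of blocks, primes in almost all intervals of
length about `√X` inside `[Z, Z+H]`, `H ≥ X^{4/5+ε}`). `L = log X`.
-/

set_option autoImplicit false

namespace Pool.Agent.Helper63.GW

open Finset ArithmeticFunction MeasureTheory
open Pool.Agent.Helper48.BK (ex th Sx Apx)
open Pool.Agent.Helper2.MR (ch)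
open Pool.Agent.Helper15.AB (IsW)
open Pool.Agent.Helper23.GK

/-! ### the window functional -/

/-- NFB (closure properties of the class `NF`). Proof. Measurability and domination are immediate; `rg a b f` is
supported in `[-b, b]` and bounded there by the maximum of the continuous function `‖f‖` (it is zero if `b < 0`);
`e^{-(t/T)²/2}` is integrable. A bounded integrable nonnegative function is square integrable. -/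
def StNfb : Prop :=
  (∀ F G : ℝ → ℝ, NF F → NF G → NF (fun s => F s + G s)) ∧
  (∀ F G : ℝ → ℝ, NF F → NF G → NF (fun s => F s * G s)) ∧
  (∀ (F : ℝ → ℝ) (a : ℝ), 0 ≤ a → NF F → NF (fun s => a * F s)) ∧
  (∀ (ι : Type) (s : Finset ι) (F : ι → ℝ → ℝ), (∀ i ∈ s, NF (F i)) → NF (fun x => ∑ i ∈ s, F i x)) ∧
  (∀ (a b : ℝ) (f : ℝ → ℂ), Continuous f → NF (rg a b f)) ∧
  (∀ (T M : ℝ) (f : ℝ → ℂ), 0 < T → Continuous f → (∀ t, ‖f t‖ ≤ M) →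
    NF (fun t => Real.exp (-(t / T) ^ 2 / 2) * ‖f t‖)) ∧
  (∀ F : ℝ → ℝ, NF F → Integrable (fun s => F s ^ 2)) ∧
  (∀ (F : ℝ → ℝ) (ξ : ℝ), NF F → NF (fun s => F (s - ξ)))

/-- NQP (properties of `NQ`, `W ≥ 1`).

Proof. `E_c(s) = e^{-((s-c)/W)²}`, `∫ E_c(s) ds = ∫ E_c(s) dc = √π W`. For `F` in `NF` the function
`c ↦ ∫ F E_c` is bounded by `∫F`, nonnegative and integrable (Tonelli), so its square is integrable. (1) monotone.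
(2) `(∑_{i∈s} x_i)² ≤ card s · ∑ x_i²` under the outer integral. (3) Cauchy: `(∫ A B E_c)² ≤ ∫A²E_c ∫B²E_c ≤ M ∫B²E_c`,
integrate over `c` (Tonelli): `M √π W ∫B²`, and `√π ≤ 2`. (4) `(∫F E_c)² ≤ (∫F)(∫F E_c)`, Tonelli:
`(1/W)(∫F) √π W ∫F`. (5) `(∫ F E_c)² ≤ ∫E_c ∫F²E_c`, Tonelli: `(1/W) √π W · √π W ∫F²`, `π ≤ 4`. (6) substitute
`s → s + ξ`, `c → c + ξ`. (7), (8) clear. -/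
def StNqp : Prop := ∀ W : ℝ, 1 ≤ W →
  (∀ F G : ℝ → ℝ, NF F → NF G → (∀ s, F s ≤ G s) → NQ W F ≤ NQ W G) ∧
  (∀ (ι : Type) (s : Finset ι) (F : ι → ℝ → ℝ), (∀ i ∈ s, NF (F i)) →
    NQ W (fun x => ∑ i ∈ s, F i x) ≤ s.card * ∑ i ∈ s, NQ W (F i)) ∧
  (∀ (A B : ℝ → ℝ) (M : ℝ), NF A → NF B → 0 ≤ M →
    (∀ c : ℝ, ∫ s : ℝ, A s ^ 2 * Real.exp (-((s - c) / W) ^ 2) ≤ M) →
    NQ W (fun s => A s * B s) ≤ 2 * M * ∫ s : ℝ, B s ^ 2) ∧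
  (∀ F : ℝ → ℝ, NF F → NQ W F ≤ 2 * (∫ s : ℝ, F s) ^ 2) ∧
  (∀ F : ℝ → ℝ, NF F → NQ W F ≤ 4 * W * ∫ s : ℝ, F s ^ 2) ∧
  (∀ (F : ℝ → ℝ) (ξ : ℝ), NQ W (fun s => F (s - ξ)) = NQ W F) ∧
  (∀ (F : ℝ → ℝ) (a : ℝ), NQ W (fun s => a * F s) = a ^ 2 * NQ W F) ∧
  (∀ F : ℝ → ℝ, 0 ≤ NQ W F)

/-- NQC (convolution with a kernel that decays like `ξ^{-4}`). From NFB, NQP.

Proof. `κ = ∫ ‖K‖ ≤ C ∫ dξ/(1+ξ⁴)`. For every `t` in the range: `‖∫ K(ξ) f(t-ξ) dξ‖ ≤ ∫ ‖K(ξ)‖ ‖f(t-ξ)‖ dξ`. For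
every `c`, by Tonelli and Cauchy in `ξ`:
`(∫_t rg(..)(t) E_c(t) dt)² ≤ (∫_ξ ‖K ξ‖ (∫_t 1_{a≤|t|≤b} ‖f(t-ξ)‖ E_c(t) dt) dξ)² ≤ κ ∫_ξ ‖K ξ‖ (∫_t ..)² dξ`; integrate over
`c`: `NQ ≤ κ ∫ ‖K ξ‖ NQ W (rg a b (f(·-ξ))) dξ`. Split the last integral at `R₁`, `R₂` and use
`∫_{|ξ|>R} dξ/(1+ξ⁴) ≤ 1/R³`. (All functions are bounded, measurable and supported in `[-b,b]` in `t`; for
`b < 0` everything is zero. `(ξ, c) ↦ ∫_t ..` is continuous.) -/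
def StNqc : Prop := ∃ C₀ : ℝ, 0 < C₀ ∧ ∀ (W C a b M R₁ R₂ M₁ M₂ M₃ : ℝ) (K f : ℝ → ℂ), 1 ≤ W → 0 < C →
  Continuous K → (∀ ξ, ‖K ξ‖ ≤ C / (1 + ξ ^ 4)) → Continuous f → (∀ t, ‖f t‖ ≤ M) → 1 ≤ R₁ → R₁ ≤ R₂ →
  0 ≤ M₁ → 0 ≤ M₂ → 0 ≤ M₃ →
  (∀ ξ : ℝ, |ξ| ≤ R₁ → NQ W (rg a b (fun t => f (t - ξ))) ≤ M₁) →
  (∀ ξ : ℝ, R₁ < |ξ| → |ξ| ≤ R₂ → NQ W (rg a b (fun t => f (t - ξ))) ≤ M₂) →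
  (∀ ξ : ℝ, R₂ < |ξ| → NQ W (rg a b (fun t => f (t - ξ))) ≤ M₃) →
  NQ W (rg a b (fun t => ∫ ξ : ℝ, K ξ * f (t - ξ))) ≤ C₀ * C ^ 2 * (M₁ + M₂ / R₁ ^ 3 + M₃ / R₂ ^ 3)

/-- WPL (Plancherel inequality on a window).

Proof. `D(s) = ∑ g(m)/m · m^{-is}` (`ch s m = m^{-is}`), `G(u)` the sum on the left. As
`T e^{-T²v²/2} = (2π)^{-1/2} ∫ e^{-s²/(2T²)} e^{isv} ds`: `G(u) = (2π)^{-1/2} ∫ D(s) e^{-s²/(2T²)} e^{isu} ds`. Hence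
`∫ e^{-W²(u-u₀)²/2} |G(u)|² du = (2π)^{-1} ∬ D(s) conj D(s') e^{-(s²+s'²)/(2T²)} (√(2π)/W) e^{i(s-s')u₀} e^{-(s-s')²/(2W²)} ds ds'`
`≤ (√(2π) W)^{-1} ∬ F(s) F(s') e^{-(s-s')²/(2W²)} ds ds'`, `F(s) = |D(s)| e^{-s²/(2T²)}`, and
`∫ e^{-((s-c)²+(s'-c)²)/W²} dc = W √(π/2) e^{-(s-s')²/(2W²)}`, so this is `(√(2π)W)^{-1} √(2/π) NQ W F = NQ W F/(π W)`. -/
def StWpl : Prop := ∀ (g : ℕ → ℝ) (M : ℕ) (T W u₀ : ℝ), 1 ≤ W → 1 ≤ T →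
  ∫ u : ℝ, Real.exp (-(W ^ 2 * (u - u₀) ^ 2 / 2)) * ‖∑ m ∈ Icc 1 M, ((g m : ℝ) : ℂ) / m *
      ((T * Real.exp (-(T ^ 2 * (u - Real.log m) ^ 2 / 2)) : ℝ) : ℂ)‖ ^ 2 ≤
    1 / W * NQ W (fun s => Real.exp (-(s / T) ^ 2 / 2) *
      ‖∑ m ∈ Icc 1 M, ((g m : ℝ) : ℂ) / m * ch s m‖)

/-! ### tuples of blocks -/

/-- PART (grouping the blocks).

Proof. Let `s = ∑ a`, `b = a/s`, `δ = ε/2`, `ω = 1/5 - δ`, `c₁ = min(δ, 1/1000)`, `c₀ = c₁/2`, `η ≤ ε/100` small. Suppose the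
first alternative fails. Then all `b_i ≤ 7/20 - ε/8` (`< 0.35`; the blocks `i < 4` are even `≤ 0.26`). Order
`b_1 ≥ b_2 ≥ .. ≥ b_8 ≥ 0`, `∑ b = 1`. We find `R`, `k` with `b_k ≥ c₁`, `∑_R b ≥ ω`, `∑_R b + b_k ≤ 1/2` (then
`∑_R a ≥ (1-η)ω ≥ 1/5 - ε`, `a_k ≥ c₀`), or the second alternative.
(a) `b_3 ≥ ω`, `b_4 ≥ c₁`: `R = {3}`, `k = 4` (`b_3 + b_4 ≤ b_1 + b_2`).
(b) `b_3 ≥ ω`, `b_4 < c₁`: `b_1 + b_2 + b_3 ≥ 1 - 5c₁`, each of them is `≥ 0.3 - 5c₁ ≥ 0.295 > 0.26`: second alternative.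
(c) `b_3 < ω`. Then `∑_{i≥3} b_i ≥ 0.3`.
(c1) `b_1 ≥ ω`. If some `k ≥ 2` has `c₁ ≤ b_k ≤ 1/2 - b_1`: `R = {1}`. Otherwise every `b_k`, `k ≥ 2`, is `< c₁` or `> 1/2 - b_1`
`(≥ 0.15)`. Let `m` be the number of `k ≥ 3` with `b_k ≥ c₁`; these are `< ω < 0.2` and the others contribute at
most `6c₁`, so `m ≥ 2`, and `b_2 ≥ b_3 > 1/2 - b_1`, so `b_1 + b_2 > 1/2`. If `m ≥ 3`: `R = {3,4}`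
(`b_3 + b_4 > 2(1/2 - b_1) ≥ 0.3 ≥ ω`), `k = 5` (`b_3+b_4+b_5 ≤ 1 - b_1 - b_2 < 1/2`). If `m = 2`: `b_1 + b_4 > 1/2`, so
`b_2 + b_4 ≤ b_2 + b_3 < 1/2`, and `b_2 ≥ 1 - 0.35 - 0.4 - 6c₁ ≥ ω`: `R = {2}`, `k = 4`.
(c2) `b_1 < ω`: `∑_{i≥6} b_i ≥ 1 - 5ω = 5δ`, so `b_6 ≥ 5δ/3 ≥ c₁`. If `b_1 + b_2 < ω`: let `j ≥ 3` be minimal with
`b_1+..+b_j ≥ ω`; `b_i < 0.1` for `i ≥ 2`, so this sum is `< 0.3` and `b_{j+1} ≥ 0.7/6`-th of the rest, `≥ c₁`, `< 0.1`: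
`R = {1..j}`, `k = j+1`. If `b_1 + b_2 ≥ ω` and `b_1 + b_2 ≤ 0.3`: `R = {1,2}`, `k = 6` (`b_6 ≤ 1/6`). If `b_1 + b_2 > 0.3`: if
`b_4 + b_5 ≥ ω`: `R = {4,5}`, `k = 6` (`b_4+b_5+b_6 ≤ b_1+b_2+b_3`); otherwise `b_6 ≤ b_5 < 0.1 - δ/2` and
`b_1 + b_2 < 0.4 - 2δ`: `R = {1,2}`, `k = 6`. -/
def StPart : Prop := ∀ ε : ℝ, 0 < ε → ε ≤ 1 / 20 → ∃ c₀ η : ℝ, 0 < c₀ ∧ 0 < η ∧ ∀ a : Fin 8 → ℝ,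
  (∀ i, 0 ≤ a i) → |∑ i, a i - 1| ≤ η → (∀ i : Fin 8, (i : ℕ) < 4 → a i ≤ 1 / 4 + η) →
  (∃ i : Fin 8, 4 ≤ (i : ℕ) ∧ 7 / 20 - ε / 4 ≤ a i) ∨
  (∃ i j l : Fin 8, i ≠ j ∧ i ≠ l ∧ j ≠ l ∧ 4 ≤ (i : ℕ) ∧ 4 ≤ (j : ℕ) ∧ 4 ≤ (l : ℕ) ∧
    29 / 100 ≤ a i ∧ 29 / 100 ≤ a j ∧ 29 / 100 ≤ a l) ∨
  (∃ (R : Finset (Fin 8)) (k : Fin 8), k ∉ R ∧ c₀ ≤ a k ∧ 1 / 5 - ε ≤ ∑ i ∈ R, a i ∧
    ∑ i ∈ R, a i + a k ≤ (∑ i, a i) / 2)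

/-- CL1 (a long smooth block). From BKS, BKB, MEA8, NFB, NQP.

Proof. `N = 2^{e i₀}`, `T' = √X L^D`, `G` = product of the other seven blocks, `‖G‖ ≤ (C L)^7` (BKB),
`P = bk χ i₀ ..`. By BKS on the range: `|P| ≤ C q² (1+e)(1/t² + 1/√N + √T'/N)`, so `rg ≤ F₁ + F₂`, `F₁ = C L^{2B+8} t^{-2}` and
`F₂ = C L^{2B+1}(1/√N + √T'/N) |G|` on the range. `NQ F₁ ≤ 2(∫F₁)² ≤ C L^{4B+16-2B1}`.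
`NQ F₂ ≤ 4W ∫F₂² ≤ C W L^{4B+2}(1/N + T'/N²) ∫_{|t|≤T'} |G|²` and MEA8 (`2^{∑_{i≠i₀} e} ≥ X/(16N)`):
`∫|G|² ≤ C (T'N/X + 1) L^C`. The four products are `W T'/X`, `W/N`, `W T'²/(N X)`, `W T'/N²`, at most `X^{-ε/2} L^{2D}` each
(exponents `1/5-ε-1/2`, `1/5-ε-7/20+ε/4`, `1/5-ε-7/20+ε/4`, `1/5-ε+1/2-7/10+ε/2`). `NQ(F₁+F₂) ≤ 2NQ F₁ + 2NQ F₂`. -/
def StCl1 : Prop := ∀ (A B D : ℕ) (ε : ℝ), 0 < ε → ε ≤ 1 / 20 → ∃ B1₀ X0 : ℕ, ∀ B1 : ℕ, B1₀ ≤ B1 →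
  ∀ X : ℕ, X0 ≤ X →
  ∀ (q : ℕ) [NeZero q] (χ : DirichletCharacter ℂ q) (e : Fin 8 → ℕ) (i₀ : Fin 8) (W : ℝ),
  (q : ℝ) ≤ Real.log X ^ B → X ≤ 16 * 2 ^ (∑ i, e i) → 2 ^ (∑ i, e i) ≤ 1024 * X → 4 ≤ (i₀ : ℕ) →
  (X : ℝ) ^ (7 / 20 - ε / 4) ≤ 2 ^ e i₀ → 1 ≤ W → W ≤ (X : ℝ) ^ (1 / 5 - ε) →
  NQ W (rg (Real.log X ^ B1) (√X * Real.log X ^ D) (PP8 χ e)) ≤ 1 / Real.log X ^ A

/-- CL2 (two groups and a third block). From BKT, BKB, MEA8, GME, NFB, NQP.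

Proof. `T' = √X L^D`, `S` = complement of `R ∪ {k}`. On the range `|bk_k| ≤ L^{-A'}` (BKT; `2^{e k} ≤ 1024X ≤ X²`). So
`rg ≤ A·B` with `A = ∏_{i∈R} ‖bk‖` and `B = L^{-A'} ∏_{i∈S} ‖bk‖` on the range, zero outside. NQP(3):
`M = sup_c ∫ A² E_c ≤ C (W/2^{∑_R e} + 1)(1+C L)^C ≤ L^{C'}` (GME), `∫B² ≤ L^{-2A'} C (T'/2^{∑_S e} + 1) L^C` (MEA8), and
`2^{∑_S e} ≥ 2^{(∑ e)/2} ≥ √X/4`, so the last bracket is `≤ 4L^D + 1`. -/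
def StCl2 : Prop := ∀ (A B D : ℕ) (c₀ : ℝ), 0 < c₀ → ∃ B1₀ X0 : ℕ, ∀ B1 : ℕ, B1₀ ≤ B1 →
  ∀ X : ℕ, X0 ≤ X →
  ∀ (q : ℕ) [NeZero q] (χ : DirichletCharacter ℂ q) (e : Fin 8 → ℕ) (R : Finset (Fin 8)) (k : Fin 8) (W : ℝ),
  (q : ℝ) ≤ Real.log X ^ B → X ≤ 16 * 2 ^ (∑ i, e i) → 2 ^ (∑ i, e i) ≤ 1024 * X → k ∉ R →
  (X : ℝ) ^ c₀ ≤ 2 ^ e k → 2 * (∑ i ∈ R, e i + e k) ≤ ∑ i, e i → 1 ≤ W → W ≤ 2 ^ (∑ i ∈ R, e i) →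
  NQ W (rg (Real.log X ^ B1) (√X * Real.log X ^ D) (PP8 χ e)) ≤ 1 / Real.log X ^ A

/-- MWL (window mean square of one smooth block `≥ X^{0.29}`). From SMW, BKS, BKB.

Proof. `N = 2^e`, `T' = √X L^D`, `E_c(s) = e^{-((s-c)/W)²}`. (i) `|c| ≤ X^{0.36}`: on `|s| ≤ 2X^{0.36}` BKS gives
`‖bk‖² ≤ C L^{4B+2}(1/s⁴ + 1/N + |s|/N²)`, and `∫_{|s|≥L^{B1}} s^{-4} ≤ L^{-3B1}`, `∫E_c ≤ 2W`,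
`W(1/N + 2X^{0.36}/N²) ≤ 3X^{-0.02}`; on `|s| > 2X^{0.36}` the Gaussian is `≤ e^{-(|s|/(2W))²} ≤ e^{-X^{0.3}}` and
`‖bk‖ ≤ C L`, `|s| ≤ T'`. (ii) `X^{0.36} < |c| ≤ 2T'`: SMW: `W/N ≤ X^{-0.09}`, `√|c|/(√W N) ≤ 2X^{1/4-0.29}L^D`,
`√(W/|c|) ≤ X^{-0.08}`. (iii) `|c| > 2T'`: `|s - c| ≥ T'` on the range, trivial. -/
def StMwl : Prop := ∀ A B D : ℕ, ∃ B1₀ X0 : ℕ, ∀ B1 : ℕ, B1₀ ≤ B1 → ∀ X : ℕ, X0 ≤ X →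
  ∀ (q : ℕ) [NeZero q] (χ : DirichletCharacter ℂ q) (i : Fin 8) (e : ℕ) (W c : ℝ),
  (q : ℝ) ≤ Real.log X ^ B → 4 ≤ (i : ℕ) → (X : ℝ) ^ (29 / 100 : ℝ) ≤ 2 ^ e → 2 ^ e ≤ 1024 * X → 1 ≤ W →
  W ≤ (X : ℝ) ^ (1 / 5 : ℝ) →
  ∫ s : ℝ, rg (Real.log X ^ B1) (√X * Real.log X ^ D) (bk χ i e) s ^ 2 *
    Real.exp (-((s - c) / W) ^ 2) ≤ 1 / Real.log X ^ A

/-- CL3 (three smooth blocks `≥ X^{0.29}`, the `l`-th is the shortest). From MWL, BKB, MEA8, NFB, NQP.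

Proof. `rg = A·B` with `A = ‖bk_l‖`, `B = ∏_{i≠l} ‖bk‖` on the range. NQP(3) with `M = L^{-A'}` (MWL) and MEA8:
`∫B² ≤ C (T'/2^{∑_{i≠l} e} + 1) L^C ≤ 2C L^C`, because `2^{3 e l} ≤ 2^{∑e} ≤ 1024X`, so
`2^{∑_{i≠l} e} ≥ (X/16)/(1024X)^{1/3} ≥ T'`. -/
def StCl3 : Prop := ∀ A B D : ℕ, ∃ B1₀ X0 : ℕ, ∀ B1 : ℕ, B1₀ ≤ B1 → ∀ X : ℕ, X0 ≤ X →
  ∀ (q : ℕ) [NeZero q] (χ : DirichletCharacter ℂ q) (e : Fin 8 → ℕ) (i j l : Fin 8) (W : ℝ),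
  (q : ℝ) ≤ Real.log X ^ B → X ≤ 16 * 2 ^ (∑ i, e i) → 2 ^ (∑ i, e i) ≤ 1024 * X →
  i ≠ j → i ≠ l → j ≠ l → 4 ≤ (l : ℕ) → e l ≤ e i → e l ≤ e j → (X : ℝ) ^ (29 / 100 : ℝ) ≤ 2 ^ e l →
  1 ≤ W → W ≤ (X : ℝ) ^ (1 / 5 : ℝ) →
  NQ W (rg (Real.log X ^ B1) (√X * Real.log X ^ D) (PP8 χ e)) ≤ 1 / Real.log X ^ A

/-- TUW (every tuple). From PART, CL1, CL2, CL3.

Proof. `a_i = e_i log 2/log X`: `|∑a - 1| ≤ log 1024/log X ≤ η`, `a_i ≤ 1/4 + log 4/log X` for `i < 4`. PART with this `ε`. First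
alternative: CL1. Second: CL3, `l` the index of the smallest of the three. Third: CL2, with
`2^{∑_R e} = X^{∑_R a} ≥ X^{1/5-ε} ≥ W`. `B1₀` is the maximum of the three. -/
def StTuw : Prop := ∀ (A B D : ℕ) (ε : ℝ), 0 < ε → ε ≤ 1 / 20 → ∃ B1₀ X0 : ℕ, ∀ B1 : ℕ, B1₀ ≤ B1 →
  ∀ X : ℕ, X0 ≤ X →
  ∀ (q : ℕ) [NeZero q] (χ : DirichletCharacter ℂ q) (e : Fin 8 → ℕ) (W : ℝ),
  (q : ℝ) ≤ Real.log X ^ B → (∀ i : Fin 8, (i : ℕ) < 4 → (2 : ℝ) ^ e i ≤ 4 * (X : ℝ) ^ (1 / 4 : ℝ)) →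
  X ≤ 16 * 2 ^ (∑ i, e i) → 2 ^ (∑ i, e i) ≤ 1024 * X → 1 ≤ W → W ≤ (X : ℝ) ^ (1 / 5 - ε) →
  NQ W (rg (Real.log X ^ B1) (√X * Real.log X ^ D) (PP8 χ e)) ≤ 1 / Real.log X ^ A

/-! ### primes -/

/-- HIW (high frequencies). From DEC4, TUW, BKB, NFB, NQP, NQC.

Proof. `u` minimal with `3X ≤ 2^{4u}`: `2^u ≤ 2(3X)^{1/4} ≤ 4X^{1/4}`, `u ≤ C L`, at most `C L^8` tuples, `|cf e| ≤ 15`. By NQP(2),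
(7) it suffices to bound `NQ W (rg a b (∫ K'(ξ) PP8 χ e (t-ξ) dξ))`, `a = L^{B1}`, `b = √X L^D`,
`K'(ξ) = K(ξ) e^{-iξ log X}`, by `L^{-A-20}`. Let `A' = A + 30`, `B2 ≥ A' + 40` large enough for TUW with `(A', B, D+1)`, `B1 = B2 + 1`.
NQC with `R₁ = L^{B2}`, `R₂ = √X`; the function `t ↦ rg a b (f(·-ξ)) t` is the translate by `ξ` of `f` restricted to
`{t' : a ≤ |t'+ξ| ≤ b}`. `|ξ| ≤ R₁`: `|t'| ≥ L^{B1} - L^{B2} ≥ L^{B2}` and `|t'| ≤ 2b ≤ √X L^{D+1}`: TUW, `M₁ = L^{-A'}`.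
`R₁ < |ξ| ≤ R₂`: `|t'| ≤ √X L^{D+1}`, the part `|t'| ≤ L^{B2}` has `NQ ≤ 2(2L^{B2}(C L)^8)²` (NQP(4), BKB), the rest is
`≤ L^{-A'}`: `M₂ = C L^{2B2+16}`, `M₂/R₁³ ≤ C L^{16-B2}`. `|ξ| > R₂`: NQP(5): `M₃ = 4W·2b·(C L)^{16} ≤ X^{0.8}`,
`M₃/R₂³ ≤ X^{-0.7}`. -/
def StHiw : Prop := ∀ w, IsW w → ∀ (A B D : ℕ) (ε : ℝ), 0 < ε → ε ≤ 1 / 20 → ∃ B1 X0 : ℕ,
  ∀ X : ℕ, X0 ≤ X → ∀ (q : ℕ) [NeZero q] (χ : DirichletCharacter ℂ q) (W : ℝ),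
  (q : ℝ) ≤ Real.log X ^ B → 1 ≤ W → W ≤ (X : ℝ) ^ (1 / 5 - ε) →
  NQ W (rg (Real.log X ^ B1) (√X * Real.log X ^ D) (fun t => GA w χ X t)) ≤ 1 / Real.log X ^ A

/-- TOW (all frequencies). From HIW, NFB, NQP and `StLow` of GK (`AllGK.low`).

Proof. As TOT of GK (`Helper47/GK/M_TOT.lean`). `T = √X L^D`, `T' = √X L^{D+1}`, `B1` from HIW for `(A+3, B, D+1)`. (i)
`|t| ≤ L^{B1}`: `‖GB‖ ≤ (1+|t|)L^{-A'}` (LOW, `A' = A + 2B1 + 3`), NQP(4). (ii) `L^{B1} ≤ |t| ≤ T'`: if `(u,q) = 1`,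
`GB = φ(q)^{-1} ∑_χ χ̄(u) GA w χ X t - φ(q)^{-1} ∑_m w(log(m/X)) m^{-1-it}`; NQP(2), (7): the first part is at most the
average over `χ` of HIW; the second is `O(t^{-2} + |t|/X)`: NQP(4) for `t^{-2}`, NQP(5) for `|t|/X`
(`W T'^3/X² ≤ X^{-0.2}`). If `(u,q) > 1`: `|GB| ≤ L³/X`, NQP(5). (iii) `|t| > T'`: `‖GB‖ ≤ C L`, NQP(4) and
`∫_{|t|>T'} e^{-(t/T)²/2} dt ≤ C T e^{-L²/2}`. -/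
def StTow : Prop := ∀ w, IsW w → ∀ (A B D : ℕ) (ε : ℝ), 0 < ε → ε ≤ 1 / 20 → ∃ X0 : ℕ,
  ∀ X : ℕ, X0 ≤ X → ∀ (q u : ℕ) (W : ℝ), 1 ≤ q → (q : ℝ) ≤ Real.log X ^ B → 1 ≤ W →
  W ≤ (X : ℝ) ^ (1 / 5 - ε) →
  NQ W (fun t => Real.exp (-(t / (√X * Real.log X ^ D)) ^ 2 / 2) * ‖GB w X q u t‖) ≤ 1 / Real.log X ^ A

/-- WNW (primes in almost all intervals of length at most `K√Z` starting in `(Z, Z+H]`, in progressions).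
From TOW, WPL, and `StSha` of GK (`AllGK.sha`).

Proof. As WIN of GK (`Helper16/GK/M_WIN.lean`). `L = log Z`, `w` admissible (`StWE`, proved), `X' = ⌊Z e^{-0.1}⌋`,
`g = gw w X' q u` (`|g| ≤ C L`), `D = A + 4`, `T = √X' (log X')^D`, `W = Z/(2H) ≤ Z^{1/5-ε}/2 ≤ X'^{1/5-ε/2}`, `u₀ = log Z`. For
`m ∈ (Z, Z+H+h]`: `log(m/X') ∈ [0.1, 0.9]`. `G(u) = ∑ g(m)/m T e^{-T²(u-log m)²/2}`; for `u ∈ [log Z, log(Z+H+h)]`: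
`0 ≤ u - u₀ ≤ (H+h)/Z ≤ 1/W`, so `W²(u-u₀)²/2 ≤ 1/2`, and WPL, TOW give `∫_{log Z}^{log(Z+H+h)} |G|² ≤ 2 (2H/Z) L^{-A'}`. SHA (with
`X'`) for `x = N ∈ (Z, Z+H]`: `|∑_{N<m≤N+h} g(m)| ≤ 2Z ∫_{log N}^{log(N+h)} |G| + C Z L/T + C L`. Cauchy (window length
`≤ h/Z`), each `u` lies in at most `h+1` windows:
`∑_N |∑ g(m)|² ≤ C Z² (h/Z)(h+1)(H/Z) L^{-A'} + C H Z L^{2-2D} + C H L² ≤ C K² H Z L^{-A'} + ..`. From `g` to `Λ` and from `Λ`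
to `th` as in WIN. -/
def StWnw : Prop := ∀ (A B K : ℕ) (ε : ℝ), 0 < ε → ε ≤ 1 / 20 → ∃ X0 : ℕ, ∀ Z H q u h : ℕ, X0 ≤ Z →
  (Z : ℝ) ^ (4 / 5 + ε) ≤ H → 2 * H ≤ Z → 1 ≤ q → (q : ℝ) ≤ Real.log Z ^ B → (h : ℝ) ≤ K * √Z →
  ∑ N ∈ Ioc Z (Z + H), (∑ m ∈ (Ioc N (N + h)).filter (fun m => m ≡ u [MOD q]), th m -
    (if Nat.Coprime u q then (h : ℝ) / Nat.totient q else 0)) ^ 2 ≤ (H : ℝ) * Z / Real.log Z ^ A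

/-- WNC (the same for all `X/2 ≤ Z ≤ 2X`, `H ≤ X`). From WNW.

Proof. `H' = ⌈H/5⌉`, the five intervals `(Z + iH', Z + (i+1)H']`, `i < 5`, cover `(Z, Z+H]`; with `Z_i = Z + iH'`,
`X/2 ≤ Z_i ≤ 3X + 5`: `2H' ≤ Z_i`, `H' ≥ X^{4/5+ε}/5 ≥ Z_i^{4/5+ε/2}`, `h ≤ K√X ≤ (2K)√Z_i`, `q ≤ log X^B ≤ (log Z_i)^{B+1}`. Use
WNW with `(A+1, B+1, 2K, ε/2)`. -/
def StWnc : Prop := ∀ (A B K : ℕ) (ε : ℝ), 0 < ε → ε ≤ 1 / 20 → ∃ X0 : ℕ, ∀ X Z H q u h : ℕ, X0 ≤ X →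
  X ≤ 2 * Z → Z ≤ 2 * X → (X : ℝ) ^ (4 / 5 + ε) ≤ H → H ≤ X → 1 ≤ q → (q : ℝ) ≤ Real.log X ^ B →
  (h : ℝ) ≤ K * √X →
  ∑ N ∈ Ioc Z (Z + H), (∑ m ∈ (Ioc N (N + h)).filter (fun m => m ≡ u [MOD q]), th m -
    (if Nat.Coprime u q then (h : ℝ) / Nat.totient q else 0)) ^ 2 ≤ (H : ℝ) * X / Real.log X ^ A

end Pool.Agent.Helper63.GW
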