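import Pool.Agent.Helper63.GW.Defs

/-!
# Project GW: statements, part A (blocks, Heath-Brown identity, mean values, exponential sums).
`L = log X`, `N = 2^e`.
-/

set_option autoImplicit false

namespace Pool.Agent.Helper63.GW

open Finset ArithmeticFunction MeasureTheory
open Pool.Agent.Helper48.BK (ex th Sx Apx)
open Pool.Agent.Helper2.MR (ch)
open Pool.Agent.Helper15.AB (IsW)
open Pool.Agent.Helper23.GK

/-! ### weights and blocks -/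

/-- BKB (basic facts on the weights; `n ≥ 1`).

Proof. `i < 4`: `|μ| ≤ 1` and `blk2 0 = {1}`, `blk2 e = (2^{e-1}, 2^e]`. `i ≥ 4`: `0 ≤ tnt ≤ 1` and `tnt e n ≠ 0`
means `|log_2 n - e| < 1`, i.e. `2^{e-1} < n < 2^{e+1}` (`n = 1` for `e = 0`), there `log n ≤ (e+1) log 2 ≤ 1 + e`.
`‖bk‖ ≤ ∑ |w0|/n`: at most `2^{e+1}` terms, each at most `(1+e)·2/2^e`. `bk` is a finite sum of continuous
functions of `t` (`ch t n = n^{-it}`, norm at most one). -/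
def StBkb : Prop :=
  (∀ (i : Fin 8) (e n : ℕ), 1 ≤ n → |w0 i e n| ≤ 1 + e) ∧
  (∀ (i : Fin 8) (e n : ℕ), 1 ≤ n → w0 i e n ≠ 0 → 2 ^ e ≤ 2 * n ∧ n ≤ 2 ^ (e + 1) ∧
    ((i : ℕ) < 4 → n ≤ 2 ^ e)) ∧
  (∀ (q : ℕ) (χ : DirichletCharacter ℂ q) (i : Fin 8) (e : ℕ), Continuous (bk χ i e)) ∧
  (∀ (q : ℕ) (χ : DirichletCharacter ℂ q) (i : Fin 8) (e : ℕ) (t : ℝ), ‖bk χ i e t‖ ≤ 4 * (1 + e))

/-- the functions of the `j`-th term of Heath-Brown's identity of order four, `U = 2^u` -/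
noncomputable def vj (u j : ℕ) (i : Fin 8) (m : ℕ) : ℝ :=
  if (i : ℕ) < 4 then
    (if (i : ℕ) < j then (if m ≤ 2 ^ u then ((moebius m : ℤ) : ℝ) else 0) else (if m = 1 then 1 else 0))
  else if (i : ℕ) = 4 then Real.log m
  else if (i : ℕ) < 4 + j then 1 else (if m = 1 then 1 else 0)

open Classical in
/-- HBI (Heath-Brown's identity of order four, pointwise), `1 ≤ n ≤ 2^{4u}`.

Proof. `M = μ 1_{m ≤ U}`, `R = μ - M`. In the commutative ring of arithmetic functions, with `μ * 1 = δ`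
and `μ * log = Λ`: `R^4 * 1^3 * log = ∑_{j ≤ 4} (-1)^j C(4,j) μ^{4-j} M^j 1^3 log = Λ + ∑_{j=1}^4 (-1)^j C(4,j)
M^j * 1^{j-1} * log`, and `R^4 * ...` vanishes on `n ≤ U^4` (each of the four factors is supported on
`m ≥ U + 1`). The value at `n` of the product of eight arithmetic functions is the sum over the
8-tuples of divisors with product `n` (missing factors are `δ`, i.e. `1_{m = 1}`). (The library has the case of
order two: `Helper87/GK/M_HB.lean`.) -/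
def StHbi : Prop := ∀ (u n : ℕ), 1 ≤ n → n ≤ 2 ^ (4 * u) →
  Λ n = ∑ j ∈ Icc (1 : ℕ) 4, (-1 : ℝ) ^ (j + 1) * (Nat.choose 4 j : ℝ) *
    ∑ x ∈ (Fintype.piFinset (fun _ : Fin 8 => n.divisors)).filter (fun x => ∏ i, x i = n),
      ∏ i, vj u j i (x i)

/-- HB4 (the identity in blocks). From HBI (hypothesis).

Proof. For `1 ≤ m ≤ 2^{4u}`: `vj u j i m = ∑_e w0 i e m` over `e ≤ u` if `i < min(4,j)` (the blocks `blk2 e`, `e ≤ u`,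
partition `[1, 2^u]`); over `e ≤ 4u` if `i = 4` or `4 < i < 4 + j` (the tents `tnt e`, `e ≤ 4u`, sum to `1` on
`[1, 2^{4u}]`); and `vj u j i m = w0 i 0 m` for the other `i`. Insert HBI, multiply by `g n`, sum over `n`; a tuple
`x` with product `n ≤ 2^{4u}` has all `x i ≤ 2^{4u}`; products `> 2^{4u}` do not matter because `g` vanishes
there; `w0 i e m = 0` for `m > 2^{e+1}`, `m ≥ 1`. Expand the product over `i` of the sums over `e i`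
(`Finset.prod_univ_sum` / `Fintype.piFinset`); `cf e` collects the `j` for which `e` is admissible. -/
def StHb4 : Prop := ∀ (u : ℕ) (g : ℕ → ℂ), (∀ n, 2 ^ (4 * u) < n → g n = 0) →
  ∑ n ∈ Icc 1 (2 ^ (4 * u)), ((Λ n : ℝ) : ℂ) * g n = ∑ e ∈ EW u, ((cf e : ℝ) : ℂ) * Te8 g e

/-- FO4 (Fourier transform of an admissible weight, with four derivatives).

Proof. As `Pool.Agent.Helper15.AB` `M_FO.lean` (which has `1 + ξ²` from two derivatives): `K(ξ) = (1/2π) ∫ w(v) e^{-iξv} dv`,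
four integrations by parts (`w ∈ C^4`, support in `[0,1]`) give `|K(ξ)| ≤ C/ξ^4`, trivially `|K| ≤ C`; Fourier
inversion. -/
def StFo4 : Prop := ∀ w, IsW w → ∃ (K : ℝ → ℂ) (C : ℝ), 0 < C ∧ Continuous K ∧
  (∀ ξ, ‖K ξ‖ ≤ C / (1 + ξ ^ 4)) ∧
  ∀ v : ℝ, ((w v : ℝ) : ℂ) = ∫ ξ : ℝ, K ξ * Complex.exp ((ξ * v : ℝ) * Complex.I)

/-- DEC4 (decomposition of `GA`). From HB4, FO4, BKB (hypotheses).

Proof. As `StDec` of GK (file `Helper23/GK/M_DEC.lean`). HB4 with `g(n) = w(log(n/X)) χ(n) ch t n / n` (zero unless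
`X ≤ n ≤ 3X ≤ 2^{4u}`; `g 0 = 0`). In `Te8 g e` insert FO4: `w(log(n/X)) ch t n = ∫ K(ξ) e^{-iξ log X} ch (t-ξ) n dξ` and
`ch (t-ξ)`, `χ`, `1/n` are completely multiplicative, so `Te8 g e = ∫ K(ξ) e^{-iξ log X} PP8 χ e (t-ξ) dξ`. If
`16·2^{∑e} < X` or `2^{∑e} > 1024 X` then `Te8 g e = 0`: by BKB the products satisfy `n ≤ 16·2^{∑e}` and
`2^{∑e} ≤ 2^8 n`. -/
def StDec4 : Prop := ∀ w, IsW w → ∃ (K : ℝ → ℂ) (C : ℝ), 0 < C ∧ Continuous K ∧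
  (∀ ξ, ‖K ξ‖ ≤ C / (1 + ξ ^ 4)) ∧
  ∀ (q : ℕ) (χ : DirichletCharacter ℂ q) (X u : ℕ) (t : ℝ), 1 ≤ X → 3 * X ≤ 2 ^ (4 * u) →
    GA w χ X t = ∑ e ∈ (EW u).filter
        (fun e => X ≤ 16 * 2 ^ (∑ i, e i) ∧ 2 ^ (∑ i, e i) ≤ 1024 * X),
      ((cf e : ℝ) : ℂ) *
        ∫ ξ : ℝ, K ξ * Complex.exp (((-(ξ * Real.log X) : ℝ) : ℂ) * Complex.I) * PP8 χ e (t - ξ)

/-! ### mean values -/

/-- MEA8 (mean value of products of block polynomials, any centre). From BKB.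

Proof. As GK's MEA (`Helper71/GK/M_MEA.lean`, which contains the moments of the divisor function for every exponent).
`∏_{i∈S} bk χ i (e i) (t+c) = ∑_{n ≤ 2^{|S|} P} d_n n^{-it}/n`, `P = 2^{∑_S e}`, `d_n = 0` unless `n ≥ P/2^8`,
`|d_n| ≤ (∏(1+e i)) τ_8(n)` where `τ_8(n) ≤ τ(n)^7` is the number of ordered factorizations (the shift `c` only
twists the coefficients by `n^{-ic}`). `StMV` of `Helper2/MR` (proved) gives
`≤ C (T + 2^8 P) ∑ |d_n|²/n² ≤ C (T+P)/P · (∏(1+e i))² ∑_{n ≤ 2^8P} τ(n)^{14}/n`. -/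
def StMea8 : Prop := ∃ C : ℕ, ∀ (q : ℕ) (χ : DirichletCharacter ℂ q) (e : Fin 8 → ℕ) (S : Finset (Fin 8))
  (c T : ℝ), 1 ≤ T →
  ∫ t in (c - T)..(c + T), ∏ i ∈ S, ‖bk χ i (e i) t‖ ^ 2 ≤
    C * (T / 2 ^ (∑ i ∈ S, e i) + 1) * (1 + ∑ i ∈ S, (e i : ℝ)) ^ C

/-- GME (the same with a Gaussian window). From MEA8 and BKB.

Proof. Cut `ℝ` into `|t - c| ≤ W` and the shells `kW < |t - c| ≤ (k+1)W`, `k ≥ 1`; on the `k`-th shell the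
Gaussian is at most `e^{-k²}` and MEA8 with `T = (k+1)W` gives
`≤ C ((k+1)W/P + 1)(..)^C ≤ (k+1) C (W/P + 1)(..)^C`; `∑ (k+1) e^{-k²} < ∞`. The integrand is bounded (BKB), so
integrable against the Gaussian. -/
def StGme : Prop := ∃ C : ℕ, ∀ (q : ℕ) (χ : DirichletCharacter ℂ q) (e : Fin 8 → ℕ) (S : Finset (Fin 8))
  (c W : ℝ), 1 ≤ W →
  ∫ t : ℝ, (∏ i ∈ S, ‖bk χ i (e i) t‖ ^ 2) * Real.exp (-((t - c) / W) ^ 2) ≤
    C * (W / 2 ^ (∑ i ∈ S, e i) + 1) * (1 + ∑ i ∈ S, (e i : ℝ)) ^ C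

/-! ### savings for one block -/

/-- MOBc (Möbius sums, any exponent `c₀ > 0`).

Proof. Copy of `hMOB` (`Helper11/GK/M_MOB.lean`) with `X^{1/6}` replaced by `X^{c₀}`: the only change is `log N ≥ c₀ L`
instead of `log N ≥ L/6` (RML divides by `(log N)^k`). From MUK, PER, RML of GK (all proved: `AllGK.muk`,
`AllGK.per`, `AllGK.rml`). -/
def StMobc : Prop := ∀ (A B : ℕ) (c₀ : ℝ), 0 < c₀ → ∃ B1 X0 : ℕ, ∀ X : ℕ, X0 ≤ X → ∀ (q : ℕ) [NeZero q]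
  (χ : DirichletCharacter ℂ q) (N : ℕ) (τ : ℝ), (q : ℝ) ≤ Real.log X ^ B →
  (X : ℝ) ^ c₀ ≤ N → N ≤ X ^ 2 → Real.log X ^ B1 ≤ |τ| → |τ| ≤ (X : ℝ) ^ 2 →
  ‖∑ n ∈ Ioc 0 N, cmu χ n * ch τ n‖ ≤ N / Real.log X ^ A

/-- ES2c (residue classes, power saving, any exponent `c₀ > 0`).

Proof. Copy of `hES2` (`Helper19/GK/M_ES2.lean`): if `q > N^{1/2}` trivial; else RES with `m0 ≥ c N^{1/2} ≥ c X^{c₀/2}`; if
`|t| < m0^{1/2}` EMS, otherwise VIN with `lam = log|t|/log m0 ≤ 5/c₀` (GK: `AllGK.vin`, `AllGK.ems`,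
`AllGK.res`). -/
def StEs2c : Prop := ∀ c₀ : ℝ, 0 < c₀ → ∃ C c : ℝ, 0 < C ∧ 0 < c ∧ ∀ (X : ℝ) (N N' q u : ℕ) (t : ℝ), 2 ≤ X →
  X ^ c₀ ≤ N → N ≤ N' → N' ≤ 2 * N → 1 ≤ q → 1 ≤ |t| → |t| ≤ X ^ 2 →
  ‖∑ n ∈ (Ioc N N').filter (fun n => n ≡ u [MOD q]), ch t n‖ ≤ C * q * N * (1 / |t| + X ^ (-c))

/-- BKT (every block of length `≥ X^{c₀}` is small). From MOBc, ES2c.

Proof. As SU1, SU2 of GK (`Helper64/GK/M_SU1.lean`, `Helper5/GK/M_SU2.lean`). `i < 4`: MOBc with `A + 2`, `c₀/2` at all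
`N' ∈ [2^{e-1}, 2^e]` and partial summation with `1/n`. `i ≥ 4`: the tent lives on the two dyadic intervals
`(2^{e-1}, 2^e]`, `(2^e, 2^{e+1}]`; residue classes modulo `q`, ES2c with `c₀/2`, partial summation with
`w0 i e n / n`, whose total variation is at most `C (1+e)/2^e`: bound `C q² (1+e)(1/|τ| + X^{-c})`, and
`|τ| ≥ L^{B1}`. -/
def StBkt : Prop := ∀ (A B : ℕ) (c₀ : ℝ), 0 < c₀ → ∃ B1 X0 : ℕ, ∀ X : ℕ, X0 ≤ X → ∀ (q : ℕ) [NeZero q]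
  (χ : DirichletCharacter ℂ q) (i : Fin 8) (e : ℕ) (τ : ℝ), (q : ℝ) ≤ Real.log X ^ B →
  (X : ℝ) ^ c₀ ≤ 2 ^ e → 2 ^ e ≤ X ^ 2 → Real.log X ^ B1 ≤ |τ| → |τ| ≤ X →
  ‖bk χ i e τ‖ ≤ 1 / Real.log X ^ A

/-- CSV (Kusmin-Landau and van der Corput for `(n+θ)^{-it}`).

Proof. `Helper58/MR/VC5.lean`: `sum_e_log_kl_shift` is the first claim (`|y| ≤ M`, shift `θ`; for `t < 0` or `t > 0`
conjugate), and `sum_e_log_two` is the second for `θ = 0`; its proof (`second_diff` of VC2 with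
`a(n) = y log(n+θ)/(2π)`, second differences comparable to `|y|/M²`) works for every `θ ∈ [0,1]`. -/
def StCsv : Prop := ∃ C : ℝ, 0 < C ∧ ∀ (N N' : ℕ) (t θ : ℝ), 1 ≤ N → N ≤ N' → N' ≤ 8 * N → 0 ≤ θ → θ ≤ 1 →
  1 ≤ |t| → (|t| ≤ N → ‖∑ n ∈ Ioc N N', cs t θ n‖ ≤ C * N / |t|) ∧
    (N ≤ |t| → ‖∑ n ∈ Ioc N N', cs t θ n‖ ≤ C * √|t|)

/-- BKS (smooth blocks; the gain of tents: `1/τ²`). From CSV, BKB.

Proof. `N = 2^e`. If `8q > N` the bound is trivial (BKB, `q²/√N ≥ √N/64`). Otherwise split into classes `n = qm + r`,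
`0 ≤ r < q`, `θ = r/q`, `n^{-iτ} = q^{-iτ}(m+θ)^{-iτ}`; `m` runs over numbers between `M - 1` and `4M`, `M = N/(2q) ≥ 4`.
The weight `w0 i e n / n` has sup and total variation `≤ C(1+e)/N`. (i) `|τ| ≥ M/2`: cut into `O(1)` pieces as in CSV,
partial summation: each class `≤ C (1+e) (√|τ| + M/|τ|)/N ≤ C (1+e) √|τ|/N·..`, total
`C q (1+e) (√|τ|/N + 1/N)`. (ii) `|τ| < M/2`: CSV gives `C (M/|τ|)(1+e)/N` for each class, total `C(1+e)/|τ|`. Also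
(Euler-Maclaurin of order one) `∑_m f(qm+r) = (1/q) ∫ f + O(∫ |f'|)`, `f(x) = w(x) x^{-1-iτ}` where `w` is the weight
(as a function of real `x`): `∫|f'| ≤ C(1+e)(1+|τ|)/N`, and with `v = log x`: `∫ f = ∫ w(e^v) e^{-iτv} dv`, where `w(e^v)` is
continuous, piecewise `C²` with three corners, so two integrations by parts give `O((1+e)/τ²)`. Total over the
classes: `C (1+e)(1/τ² + q|τ|/N)`. Finally `min(q|τ|/N, 1/|τ|) ≤ (q/N)^{1/2}`. -/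
def StBks : Prop := ∃ C : ℝ, 0 < C ∧ ∀ (q : ℕ) [NeZero q] (χ : DirichletCharacter ℂ q) (i : Fin 8)
  (e : ℕ) (τ : ℝ), 4 ≤ (i : ℕ) → 1 ≤ |τ| →
  ‖bk χ i e τ‖ ≤ C * q ^ 2 * (1 + e) * (1 / τ ^ 2 + 1 / √((2 : ℝ) ^ e) + √|τ| / 2 ^ e)

/-! ### second moment of a smooth block on short windows -/

/-- SMD (sums over differences).

Proof. The terms are `e(∓(t/2π) g(m))`, `g(x) = log(x+k+θ) - log(x+θ)`, `g'' = k(2x+2θ+k)/((x+θ)²(x+k+θ)²)`, between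
`c k/N³` and `C k/N³` for `N ≤ x ≤ 9N`, `k ≤ 8N`. `second_diff` (`Helper58/MR/VC2.lean`, for `a` or its negative
by conjugation) with `λ = c|t|k/N³`: `≤ (AλN·8 + 2)(5/√λ + 1)`, and if `λ ≤ 1` this is `≤ C(N√λ + 1/√λ)`. If `λ > 1` the
trivial bound `8N ≤ 8N√λ`. -/
def StSmd : Prop := ∃ C : ℝ, 0 < C ∧ ∀ (N N' k : ℕ) (t θ : ℝ), 1 ≤ N → N ≤ N' → N' ≤ 8 * N → 1 ≤ k →
  k ≤ 8 * N → 0 ≤ θ → θ ≤ 1 → 1 ≤ |t| →
  ‖∑ m ∈ Ioc N N', cs t θ (m + k) * (starRingEnd ℂ) (cs t θ m)‖ ≤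
    C * (√(|t| * k / N) + √((N : ℝ) ^ 3 / (|t| * k)))

/-- SMW (second moment of a smooth block on a window). From SMD, BKB.

Proof. `N = 2^e`. If `8q > N`: trivial, by BKB the left side is `≤ 30(1+e)² W` and `q² W/N ≥ W/64`. Otherwise split into
classes `n = qm + r`, `θ = r/q`: `‖bk‖² ≤ q ∑_r |∑_m a_m (m+θ)^{-is}|²`, `a_m = w0 i e n / n` real (the constant factor
`χ(r) q^{-is}` has modulus `≤ 1`). As `∫ e^{-iys} e^{-((s-c)/W)²} ds = √π W e^{-iyc} e^{-W²y²/4}`: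
`∫ |∑_m ..|² e^{..} = √π W ∑_{m,m'} a_m a_{m'} ((m'+θ)/(m+θ))^{ic} e^{-W² y²/4}`, `y = log((m'+θ)/(m+θ))`. Diagonal:
`∑ a_m² ≤ C M (1+e)²/N²`, `M = N/(2q)`. Off the diagonal `m' = m + k`, `1 ≤ k ≤ 4M`, and real parts: for fixed `k` the weight
`a_m a_{m+k} e^{-W²y²/4}` has sup and total variation `≤ C (1+e)²/N² · e^{-c'W²k²/M²}` (`y ≥ k/(8M)`, `y` is monotone in `m`),
so by partial summation and SMD (cut into `O(1)` pieces) the sum is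
`≤ C (1+e)²/N² · e^{-c'W²k²/M²} (√(|c|k/M) + √(M³/(|c|k)))`. Sum over `k` with
`∑_k √k e^{-c'(kW/M)²} ≤ C (M/W)^{3/2}`, `∑_k k^{-1/2} e^{-c'(kW/M)²} ≤ C (M/W)^{1/2}`. Total (factor `q·q` from the
classes, `W`, `M = N/(2q)`): `C q²(1+e)² (W/N + √|c|/(√W N) + √(W/|c|))`. -/
def StSmw : Prop := ∃ C : ℝ, 0 < C ∧ ∀ (q : ℕ) [NeZero q] (χ : DirichletCharacter ℂ q) (i : Fin 8)
  (e : ℕ) (c W : ℝ), 4 ≤ (i : ℕ) → 1 ≤ W → 1 ≤ |c| →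
  ∫ s : ℝ, ‖bk χ i e s‖ ^ 2 * Real.exp (-((s - c) / W) ^ 2) ≤
    C * q ^ 2 * (1 + e) ^ 2 * (W / 2 ^ e + √|c| / (√W * 2 ^ e) + √(W / |c|))

end Pool.Agent.Helper63.GW
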