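import Pool.Agent.Helper63.GW.StB
import Pool.Agent.Helper58.SU.Defs
import Pool.Agent.Helper47.GK.TOT2

/-!
# Project GW: module TTW (the interface with project SU)
-/

set_option autoImplicit false

namespace Pool.Agent.Helper63.GW

open Finset ArithmeticFunction MeasureTheory Filter
open Pool.Agent.Helper48.BK (ex th Sx Apx)
open Pool.Agent.Helper15.AB (IsW)
open Pool.Agent.Helper23.GK
open Pool.Agent.Helper47.GK
open scoped Convolution

namespace TTW

/-- the inner integral of the window functional -/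
noncomputable def gg (W : ℝ) (F : ℝ → ℝ) (c : ℝ) : ℝ := ∫ s : ℝ, F s * Real.exp (-((s - c) / W) ^ 2)

theorem gauss_int (W : ℝ) (hW : 0 < W) (c : ℝ) : Integrable (fun s : ℝ => Real.exp (-((s - c) / W) ^ 2)) := by
  have h1 : Integrable (fun x : ℝ => Real.exp (-(1 / W ^ 2) * x ^ 2)) :=
    integrable_exp_neg_mul_sq (by positivity)
  have h2 := h1.comp_sub_right c
  refine h2.congr (Eventually.of_forall fun s => ?_)
  show Real.exp _ = Real.exp _
  congr 1
  field_simp

theorem exp_le_one' (x : ℝ) : Real.exp (-x ^ 2) ≤ 1 := by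
  rw [Real.exp_le_one_iff]; nlinarith [sq_nonneg x]

theorem FE_int (W : ℝ) (F : ℝ → ℝ) (hF : NF F) (c : ℝ) :
    Integrable (fun s : ℝ => F s * Real.exp (-((s - c) / W) ^ 2)) := by
  obtain ⟨hm, h0, _, hi⟩ := hF
  refine hi.mono' (by fun_prop) (Eventually.of_forall fun s => ?_)
  rw [Real.norm_eq_abs, abs_mul, abs_of_nonneg (h0 s), abs_of_pos (Real.exp_pos _)]
  have := exp_le_one' ((s - c) / W)
  nlinarith [h0 s]

theorem gg_nonneg (W : ℝ) (F : ℝ → ℝ) (hF : NF F) (c : ℝ) : 0 ≤ gg W F c :=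
  integral_nonneg fun s => mul_nonneg (hF.2.1 s) (Real.exp_pos _).le

theorem gg_le (W : ℝ) (F : ℝ → ℝ) (hF : NF F) (c : ℝ) : gg W F c ≤ ∫ s, F s := by
  refine integral_mono (FE_int W F hF c) hF.2.2.2 fun s => ?_
  have := exp_le_one' ((s - c) / W)
  have h := hF.2.1 s
  show F s * Real.exp (-((s - c) / W) ^ 2) ≤ F s
  nlinarith

theorem gg_int (W : ℝ) (hW : 0 < W) (F : ℝ → ℝ) (hF : NF F) : Integrable (gg W F) := by
  have h1 : Integrable (F ⋆[ContinuousLinearMap.mul ℝ ℝ, volume]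
      (fun y : ℝ => Real.exp (-((y - 0) / W) ^ 2))) volume :=
    hF.2.2.2.integrable_convolution _ (gauss_int W hW 0)
  refine h1.congr (Eventually.of_forall fun c => ?_)
  unfold MeasureTheory.convolution gg
  refine integral_congr_ae (Eventually.of_forall fun s => ?_)
  show (ContinuousLinearMap.mul ℝ ℝ) (F s) (Real.exp (-((c - s - 0) / W) ^ 2)) = _
  rw [ContinuousLinearMap.mul_apply']
  show F s * Real.exp (-((c - s - 0) / W) ^ 2) = F s * Real.exp (-((s - c) / W) ^ 2)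
  congr 2
  ring

theorem gg_sq_int (W : ℝ) (hW : 0 < W) (F : ℝ → ℝ) (hF : NF F) : Integrable (fun c => gg W F c ^ 2) := by
  have h1 := gg_int W hW F hF
  refine (h1.const_mul (∫ s, F s)).mono' (h1.aestronglyMeasurable.pow 2) (Eventually.of_forall fun c => ?_)
  rw [Real.norm_eq_abs, abs_of_nonneg (sq_nonneg _)]
  have h2 := gg_nonneg W F hF c
  have h3 := gg_le W F hF c
  nlinarith

theorem sum_set_le (f : ℝ → ℝ) (h0 : ∀ x, 0 ≤ f x) (hi : Integrable f) (W : ℝ) (s : Finset ℤ) :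
    ∑ j ∈ s, ∫ c in Set.Ioc ((j : ℝ) * W) (((j : ℝ) + 1) * W), f c ≤ ∫ c, f c := by
  have hd : Pairwise (Function.onFun Disjoint fun n : ℤ => Set.Ioc ((n : ℝ) * W) (((n : ℝ) + 1) * W)) := by
    simpa [zsmul_eq_mul] using Set.pairwise_disjoint_Ioc_zsmul W
  rw [← MeasureTheory.integral_biUnion_finset s (fun i _ => measurableSet_Ioc)
    (fun i _ j _ h => hd h) (fun i _ => hi.integrableOn)]
  exact setIntegral_le_integral hi (Eventually.of_forall h0)

theorem exp_two_le : Real.exp 1 ^ 2 ≤ 9 := by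
  have h := Real.exp_one_lt_d9
  have h' := Real.exp_pos 1
  nlinarith

/-- the windows are controlled by the functional -/
theorem wsq_le_NQ (W : ℝ) (hW : 0 < W) (F : ℝ → ℝ) (hF : NF F) (J : ℕ) :
    Pool.Agent.Helper58.SU.wsq F W J ≤ 9 * NQ W F := by
  have h1 : ∀ (j : ℤ), W * (∫ t in ((j : ℝ) * W)..(((j : ℝ) + 1) * W), F t) ^ 2 ≤
      9 * ∫ c in Set.Ioc ((j : ℝ) * W) (((j : ℝ) + 1) * W), gg W F c ^ 2 := by
    intro j
    have hle : (j : ℝ) * W ≤ ((j : ℝ) + 1) * W := by nlinarith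
    rw [intervalIntegral.integral_of_le hle]
    set S := Set.Ioc ((j : ℝ) * W) (((j : ℝ) + 1) * W) with hS
    have hI0 : 0 ≤ ∫ t in S, F t := setIntegral_nonneg measurableSet_Ioc fun t _ => hF.2.1 t
    have h2 : ∀ c ∈ S, (∫ t in S, F t) ≤ Real.exp 1 * gg W F c := by
      intro c hc
      have h3 : (∫ t in S, F t) ≤ ∫ t in S, Real.exp 1 * (F t * Real.exp (-((t - c) / W) ^ 2)) := by
        refine setIntegral_mono_on hF.2.2.2.integrableOn
          ((FE_int W F hF c).const_mul _).integrableOn measurableSet_Ioc fun t ht => ?_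
        have h4 : |(t - c) / W| ≤ 1 := by
          rw [abs_div, abs_of_pos hW, div_le_one hW, abs_le]
          rw [hS] at hc ht
          constructor <;> nlinarith [hc.1, hc.2, ht.1, ht.2]
        have h5 : ((t - c) / W) ^ 2 ≤ 1 := by rw [sq_le_one_iff_abs_le_one]; exact h4
        have h6 : 1 ≤ Real.exp 1 * Real.exp (-((t - c) / W) ^ 2) := by
          rw [← Real.exp_add]; apply Real.one_le_exp; linarith
        have h7 := hF.2.1 t
        calc F t = F t * 1 := (mul_one _).symm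
          _ ≤ F t * (Real.exp 1 * Real.exp (-((t - c) / W) ^ 2)) := mul_le_mul_of_nonneg_left h6 h7
          _ = _ := by ring
      refine h3.trans ?_
      rw [integral_const_mul]
      apply mul_le_mul_of_nonneg_left _ (Real.exp_pos 1).le
      exact setIntegral_le_integral (FE_int W F hF c)
        (Eventually.of_forall fun s => mul_nonneg (hF.2.1 s) (Real.exp_pos _).le)
    have h8 : ∫ c in S, (∫ t in S, F t) ^ 2 ≤ ∫ c in S, 9 * gg W F c ^ 2 := by
      refine setIntegral_mono_on ?_ ((gg_sq_int W hW F hF).const_mul 9).integrableOn measurableSet_Ioc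
        fun c hc => ?_
      · exact integrableOn_const (by rw [hS, Real.volume_Ioc]; exact ENNReal.ofReal_ne_top)
      · have h9 := h2 c hc
        calc (∫ t in S, F t) ^ 2 ≤ (Real.exp 1 * gg W F c) ^ 2 := pow_le_pow_left₀ hI0 h9 2
          _ = Real.exp 1 ^ 2 * gg W F c ^ 2 := by ring
          _ ≤ 9 * gg W F c ^ 2 := mul_le_mul_of_nonneg_right exp_two_le (sq_nonneg _)
    rw [integral_const_mul, setIntegral_const] at h8
    have h10 : (volume.real S) = W := by
      rw [hS, measureReal_def, Real.volume_Ioc, ENNReal.toReal_ofReal (by linarith)]; ring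
    rw [h10, smul_eq_mul] at h8
    exact h8
  have h11 : W * Pool.Agent.Helper58.SU.wsq F W J ≤ 9 * ∫ c, gg W F c ^ 2 := by
    unfold Pool.Agent.Helper58.SU.wsq
    rw [mul_sum]
    calc _ ≤ ∑ j ∈ Icc (-(J : ℤ)) J, 9 * ∫ c in Set.Ioc ((j : ℝ) * W) (((j : ℝ) + 1) * W), gg W F c ^ 2 :=
          sum_le_sum fun j _ => h1 j
      _ = 9 * ∑ j ∈ Icc (-(J : ℤ)) J, ∫ c in Set.Ioc ((j : ℝ) * W) (((j : ℝ) + 1) * W), gg W F c ^ 2 := by
          rw [mul_sum]
      _ ≤ _ := by
          apply mul_le_mul_of_nonneg_left _ (by norm_num)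
          exact sum_set_le _ (fun x => sq_nonneg _) (gg_sq_int W hW F hF) W _
  have h12 : NQ W F = (1 / W) * ∫ c, gg W F c ^ 2 := rfl
  rw [h12]
  have h13 : Pool.Agent.Helper58.SU.wsq F W J = (1 / W) * (W * Pool.Agent.Helper58.SU.wsq F W J) := by
    field_simp
  rw [h13]
  calc (1 / W) * (W * Pool.Agent.Helper58.SU.wsq F W J) ≤ (1 / W) * (9 * ∫ c, gg W F c ^ 2) :=
        mul_le_mul_of_nonneg_left h11 (by positivity)
    _ = _ := by ring

theorem NQ_mono (W : ℝ) (hW : 0 < W) (F G : ℝ → ℝ) (hF : NF F) (hG : NF G) (h : ∀ s, F s ≤ G s) :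
    NQ W F ≤ NQ W G := by
  have e1 : NQ W F = (1 / W) * ∫ c, gg W F c ^ 2 := rfl
  have e2 : NQ W G = (1 / W) * ∫ c, gg W G c ^ 2 := rfl
  rw [e1, e2]
  apply mul_le_mul_of_nonneg_left _ (by positivity)
  refine integral_mono (gg_sq_int W hW F hF) (gg_sq_int W hW G hG) fun c => ?_
  refine pow_le_pow_left₀ (gg_nonneg W F hF c) ?_ 2
  exact integral_mono (FE_int W F hF c) (FE_int W G hG c) fun s =>
    mul_le_mul_of_nonneg_right (h s) (Real.exp_pos _).le

end TTW

open TTW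

/-- TTW (the interface `StTotw` of project SU) -/
theorem hTTW : StTow → StNfb → Pool.Agent.Helper58.SU.StTotw := by
  intro hT hN w hw ε hε A B
  obtain ⟨X1, h1⟩ := hT w hw (A + 1) B 1 (min ε (1 / 20)) (lt_min hε (by norm_num)) (min_le_right _ _)
  have t2 : Tendsto (fun X : ℕ => Real.log X) atTop atTop :=
    Real.tendsto_log_atTop.comp tendsto_natCast_atTop_atTop
  obtain ⟨X2, hX2⟩ := eventually_atTop.mp (t2.eventually_ge_atTop 9)
  refine ⟨max X1 (max X2 1), ?_⟩
  intro X hX q u hq hqL T W hW1 hW2 hT1 hT2 J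
  have hX1 : X1 ≤ X := le_trans (le_max_left _ _) hX
  have hX2' : X2 ≤ X := le_trans (le_trans (le_max_left _ _) (le_max_right _ _)) hX
  have hX3 : 1 ≤ X := le_trans (le_trans (le_max_right _ _) (le_max_right _ _)) hX
  have hL : 9 ≤ Real.log X := hX2 X hX2'
  have hXr : (1 : ℝ) ≤ X := by exact_mod_cast hX3
  have hWW : W ≤ (X : ℝ) ^ (1 / 5 - min ε (1 / 20)) := by
    refine hW2.trans (Real.rpow_le_rpow_of_exponent_le hXr ?_)
    linarith [min_le_left ε (1 / 20)]
  have h2 := h1 X hX1 q u W hq hqL hW1 hWW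
  have hNF := hN.2.2.2.2.2.1
  have hc : Continuous (GB w X q u) := cont_GB_TOT w X q u
  have hb : ∀ t, ‖GB w X q u t‖ ≤ 3 * (Real.log (3 * X) + 1) := fun t => GB_bound_TOT hw hX3 hq t
  have hS : (1 : ℝ) ≤ √(X : ℝ) := by rw [Real.one_le_sqrt]; exact hXr
  have hT' : T ≤ √(X : ℝ) * Real.log X ^ 1 := by rw [pow_one]; nlinarith
  have hTp : 0 < T := by linarith
  have hG : NF (fun t => Real.exp (-(t / (√X * Real.log X ^ 1)) ^ 2 / 2) * ‖GB w X q u t‖) :=
    hNF _ _ _ (by positivity) hc hb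
  have hs2 : (0 : ℝ) < √2 := by positivity
  have hF : NF (fun t => Real.exp (-(t / T) ^ 2) * ‖GB w X q u t‖) := by
    have := hNF (T / √2) _ _ (by positivity) hc hb
    have e : ∀ t : ℝ, (t / (T / √2)) ^ 2 = 2 * (t / T) ^ 2 := by
      intro t
      rw [div_div_eq_mul_div, div_pow, mul_pow, Real.sq_sqrt (by norm_num), div_pow]
      ring
    have e' : (fun t => Real.exp (-(t / T) ^ 2) * ‖GB w X q u t‖) =
        (fun t => Real.exp (-(t / (T / √2)) ^ 2 / 2) * ‖GB w X q u t‖) := by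
      funext t
      rw [e t]
      congr 2
      ring
    rw [e']
    exact this
  have hle : ∀ t, Real.exp (-(t / T) ^ 2) * ‖GB w X q u t‖ ≤
      Real.exp (-(t / (√X * Real.log X ^ 1)) ^ 2 / 2) * ‖GB w X q u t‖ := by
    intro t
    apply mul_le_mul_of_nonneg_right _ (norm_nonneg _)
    apply Real.exp_le_exp.mpr
    have h3 : (t / (√X * Real.log X ^ 1)) ^ 2 ≤ (t / T) ^ 2 := by
      rw [div_pow, div_pow]
      exact div_le_div_of_nonneg_left (sq_nonneg t) (by positivity) (pow_le_pow_left₀ hTp.le hT' 2)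
    have h4 : 0 ≤ (t / T) ^ 2 := sq_nonneg _
    have e5 : -(t / (√X * Real.log X ^ 1)) ^ 2 / 2 = -((t / (√X * Real.log X ^ 1)) ^ 2 / 2) := by ring
    rw [e5]
    linarith
  have hWp : 0 < W := by linarith
  calc Pool.Agent.Helper58.SU.wsq (fun t => Real.exp (-(t / T) ^ 2) * ‖GB w X q u t‖) W J
      ≤ 9 * NQ W (fun t => Real.exp (-(t / T) ^ 2) * ‖GB w X q u t‖) := wsq_le_NQ W hWp _ hF J
    _ ≤ 9 * NQ W (fun t => Real.exp (-(t / (√X * Real.log X ^ 1)) ^ 2 / 2) * ‖GB w X q u t‖) :=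
        mul_le_mul_of_nonneg_left (NQ_mono W hWp _ _ hF hG hle) (by norm_num)
    _ ≤ 9 * (1 / Real.log X ^ (A + 1)) := mul_le_mul_of_nonneg_left h2 (by norm_num)
    _ ≤ 1 / Real.log X ^ A := by
        rw [pow_succ, mul_one_div, div_le_div_iff₀ (by positivity) (by positivity)]
        nlinarith [pow_pos (show 0 < Real.log X by linarith) A]

end Pool.Agent.Helper63.GW
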