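import Pool.Agent.Helper63.GW.StB

/-!
# Project GW: module WNC
-/

set_option autoImplicit false

namespace Pool.Agent.Helper63.GW

open Finset ArithmeticFunction MeasureTheory Filter
open Pool.Agent.Helper48.BK (ex th Sx Apx)

theorem wnc_cover (f : ℕ → ℝ) (hf : ∀ n, 0 ≤ f n) (Z H H' : ℕ) (h : H ≤ 5 * H') :
    ∑ N ∈ Ioc Z (Z + H), f N ≤ ∑ i ∈ range 5, ∑ N ∈ Ioc (Z + i * H') (Z + i * H' + H'), f N := by
  have h5 : ∀ k : ℕ, ∑ i ∈ range k, ∑ N ∈ Ioc (Z + i * H') (Z + i * H' + H'), f N =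
      ∑ N ∈ Ioc Z (Z + k * H'), f N := by
    intro k
    induction k with
    | zero => simp
    | succ k ih =>
      rw [sum_range_succ, ih, show Z + (k + 1) * H' = Z + k * H' + H' by ring]
      rw [← Finset.sum_Ioc_consecutive f (show Z ≤ Z + k * H' by omega)
        (show Z + k * H' ≤ Z + k * H' + H' by omega)]
  rw [h5 5]
  apply sum_le_sum_of_subset_of_nonneg
  · intro N hN
    simp only [mem_Ioc] at hN ⊢
    omega
  · intro N _ _
    exact hf N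

theorem wnc_thr (A B X1 : ℕ) (ε : ℝ) (hε : 0 < ε) : ∃ X0 : ℕ, 16 ≤ X0 ∧ 2 * X1 ≤ X0 ∧
    ∀ X : ℕ, X0 ≤ X → (20 : ℝ) ≤ (X : ℝ) ^ (ε / 2) ∧ 2 ^ (B + 1) ≤ Real.log X ∧
      20 * 2 ^ (A + 1) ≤ Real.log X := by
  have t1 : Tendsto (fun X : ℕ => (X : ℝ) ^ (ε / 2)) atTop atTop :=
    (tendsto_rpow_atTop (by linarith)).comp tendsto_natCast_atTop_atTop
  have t2 : Tendsto (fun X : ℕ => Real.log X) atTop atTop :=
    Real.tendsto_log_atTop.comp tendsto_natCast_atTop_atTop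
  have h1 := t1.eventually_ge_atTop 20
  have h2 := t2.eventually_ge_atTop (2 ^ (B + 1))
  have h3 := t2.eventually_ge_atTop (20 * 2 ^ (A + 1))
  obtain ⟨N, hN⟩ := eventually_atTop.mp (h1.and (h2.and h3))
  refine ⟨max N (max 16 (2 * X1)), ?_, ?_, ?_⟩
  · exact le_trans (le_max_left _ _) (le_max_right _ _)
  · exact le_trans (le_max_right _ _) (le_max_right _ _)
  · intro X hX
    exact hN X (le_trans (le_max_left _ _) hX)

/-- WNC -/
theorem hWNC : StWnw → StWnc := by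
  intro hW A B K ε hε hε'
  obtain ⟨X1, h1⟩ := hW (A + 1) (B + 1) (2 * K) (ε / 2) (by linarith) (by linarith)
  obtain ⟨X0, hX16, hX1, hthr⟩ := wnc_thr A B X1 ε hε
  refine ⟨X0, ?_⟩
  intro X Z H q u h hX hXZ hZX hH hHX hq hqL hh
  obtain ⟨t1, t2, t3⟩ := hthr X hX
  have hX16' : 16 ≤ X := le_trans hX16 hX
  have hXr : (16 : ℝ) ≤ X := by exact_mod_cast hX16'
  have hXpos : (0 : ℝ) < X := by linarith
  set H' : ℕ := (H + 4) / 5 with hH'
  have hH5 : H ≤ 5 * H' := by omega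
  have hHpos : (0 : ℝ) < H := lt_of_lt_of_le (Real.rpow_pos_of_pos hXpos _) hH
  have hH1 : 1 ≤ H := by exact_mod_cast hHpos
  have hH'H : H' ≤ H := by omega
  have hlogX : 0 < Real.log X := Real.log_pos (by linarith)
  set f : ℕ → ℝ := fun N => (∑ m ∈ (Ioc N (N + h)).filter (fun m => m ≡ u [MOD q]), th m -
    (if Nat.Coprime u q then (h : ℝ) / Nat.totient q else 0)) ^ 2 with hf
  have key : ∀ i ∈ range 5, ∑ N ∈ Ioc (Z + i * H') (Z + i * H' + H'), f N ≤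
      (4 * 2 ^ (A + 1)) * ((H : ℝ) * X / Real.log X ^ (A + 1)) := by
    intro i hi
    have hi5 : i < 5 := mem_range.mp hi
    set Zi : ℕ := Z + i * H' with hZi
    have hi4 : i * H' ≤ 4 * H' := Nat.mul_le_mul_right _ (by omega)
    have hZi1 : X ≤ 2 * Zi := by omega
    have hZi2 : Zi ≤ 4 * X := by omega
    have hZi3 : 2 * H' ≤ Zi := by omega
    have hZi4 : X1 ≤ Zi := by omega
    have hZir1 : (X : ℝ) ≤ 2 * Zi := by exact_mod_cast hZi1
    have hZir2 : (Zi : ℝ) ≤ 4 * X := by exact_mod_cast hZi2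
    have hZipos : (0 : ℝ) < Zi := by linarith
    have hlog : Real.log X ≤ 2 * Real.log Zi := by
      have : (X : ℝ) ≤ (Zi : ℝ) ^ 2 := by nlinarith
      calc Real.log X ≤ Real.log ((Zi : ℝ) ^ 2) := Real.log_le_log hXpos this
        _ = 2 * Real.log Zi := by rw [Real.log_pow]; norm_num
    have hlogZ : 0 < Real.log Zi := by linarith
    have hHr : (H : ℝ) ≤ 5 * H' := by exact_mod_cast hH5
    -- length
    have e1 : (Zi : ℝ) ^ (4 / 5 + ε / 2) ≤ H' := by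
      have a1 : (Zi : ℝ) ^ (4 / 5 + ε / 2) ≤ (4 * (X : ℝ)) ^ (4 / 5 + ε / 2) :=
        Real.rpow_le_rpow hZipos.le hZir2 (by linarith)
      have a2 : (4 * (X : ℝ)) ^ (4 / 5 + ε / 2) = 4 ^ (4 / 5 + ε / 2) * (X : ℝ) ^ (4 / 5 + ε / 2) :=
        Real.mul_rpow (by norm_num) hXpos.le
      have a3 : (4 : ℝ) ^ (4 / 5 + ε / 2) ≤ 4 := by
        calc (4 : ℝ) ^ (4 / 5 + ε / 2) ≤ (4 : ℝ) ^ (1 : ℝ) :=
              Real.rpow_le_rpow_of_exponent_le (by norm_num) (by linarith)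
          _ = 4 := Real.rpow_one 4
      have a4 : (X : ℝ) ^ (4 / 5 + ε) = (X : ℝ) ^ (4 / 5 + ε / 2) * (X : ℝ) ^ (ε / 2) := by
        rw [← Real.rpow_add hXpos]; congr 1; ring
      have a5 : 0 < (X : ℝ) ^ (4 / 5 + ε / 2) := Real.rpow_pos_of_pos hXpos _
      have a6 : (X : ℝ) ^ (4 / 5 + ε / 2) * 20 ≤ (X : ℝ) ^ (4 / 5 + ε) := by
        rw [a4]; exact mul_le_mul_of_nonneg_left t1 a5.le
      have a7 : (4 : ℝ) ^ (4 / 5 + ε / 2) * (X : ℝ) ^ (4 / 5 + ε / 2) ≤ 4 * (X : ℝ) ^ (4 / 5 + ε / 2) :=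
        mul_le_mul_of_nonneg_right a3 a5.le
      linarith
    -- modulus
    have e2 : (q : ℝ) ≤ Real.log Zi ^ (B + 1) := by
      have b1 : Real.log X ^ B ≤ (2 * Real.log Zi) ^ B := pow_le_pow_left₀ hlogX.le hlog B
      have b2 : (2 : ℝ) ^ B ≤ Real.log Zi := by
        have : (2 : ℝ) ^ (B + 1) = 2 * 2 ^ B := by ring
        linarith
      calc (q : ℝ) ≤ Real.log X ^ B := hqL
        _ ≤ (2 * Real.log Zi) ^ B := b1
        _ = 2 ^ B * Real.log Zi ^ B := by rw [mul_pow]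
        _ ≤ Real.log Zi * Real.log Zi ^ B := mul_le_mul_of_nonneg_right b2 (pow_nonneg hlogZ.le _)
        _ = Real.log Zi ^ (B + 1) := by ring
    -- window
    have e3 : (h : ℝ) ≤ ((2 * K : ℕ) : ℝ) * √Zi := by
      have c1 : √(X : ℝ) ≤ 2 * √(Zi : ℝ) := by
        calc √(X : ℝ) ≤ √(4 * (Zi : ℝ)) := Real.sqrt_le_sqrt (by linarith)
          _ = √4 * √(Zi : ℝ) := Real.sqrt_mul (by norm_num) _
          _ = 2 * √(Zi : ℝ) := by
            rw [show (4 : ℝ) = 2 ^ 2 by norm_num, Real.sqrt_sq (by norm_num)]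
      have c2 : (K : ℝ) * √X ≤ K * (2 * √Zi) := mul_le_mul_of_nonneg_left c1 (Nat.cast_nonneg K)
      push_cast
      linarith
    have e4 := h1 Zi H' q u h hZi4 (by exact_mod_cast e1) hZi3 hq e2 e3
    have e5 : (H' : ℝ) * Zi / Real.log Zi ^ (A + 1) ≤
        (4 * 2 ^ (A + 1)) * ((H : ℝ) * X / Real.log X ^ (A + 1)) := by
      have d1 : (Real.log X / 2) ^ (A + 1) ≤ Real.log Zi ^ (A + 1) :=
        pow_le_pow_left₀ (by linarith) (by linarith) _
      have d2 : (H' : ℝ) * Zi ≤ H * (4 * X) :=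
        mul_le_mul (by exact_mod_cast hH'H) hZir2 hZipos.le hHpos.le
      calc (H' : ℝ) * Zi / Real.log Zi ^ (A + 1) ≤ H * (4 * X) / (Real.log X / 2) ^ (A + 1) :=
            div_le_div₀ (by positivity) d2 (by positivity) d1
        _ = (4 * 2 ^ (A + 1)) * ((H : ℝ) * X / Real.log X ^ (A + 1)) := by
            rw [div_pow]; field_simp
    exact le_trans e4 e5
  have hpos : 0 < (H : ℝ) * X / Real.log X ^ A := by positivity
  calc ∑ N ∈ Ioc Z (Z + H), f N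
      ≤ ∑ i ∈ range 5, ∑ N ∈ Ioc (Z + i * H') (Z + i * H' + H'), f N :=
        wnc_cover f (fun n => sq_nonneg _) Z H H' hH5
    _ ≤ ∑ i ∈ range 5, (4 * 2 ^ (A + 1)) * ((H : ℝ) * X / Real.log X ^ (A + 1)) := sum_le_sum key
    _ = (20 * 2 ^ (A + 1) / Real.log X) * ((H : ℝ) * X / Real.log X ^ A) := by
        rw [sum_const, card_range, pow_succ (Real.log (X : ℝ)) A]
        simp only [nsmul_eq_mul]
        push_cast
        field_simp
        ring
    _ ≤ 1 * ((H : ℝ) * X / Real.log X ^ A) := by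
        apply mul_le_mul_of_nonneg_right _ hpos.le
        rw [div_le_one hlogX]
        exact t3
    _ = (H : ℝ) * X / Real.log X ^ A := one_mul _

end Pool.Agent.Helper63.GW
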