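import Pool.Agent.Helper23.GK.All
import Pool.Agent.Helper14.GW.M_NQP
import Pool.Agent.Helper14.GW.M_PART
import Pool.Agent.Helper17.GW.M_BKB
import Pool.Agent.Helper17.GW.M_DEC4
import Pool.Agent.Helper17.GW.M_MOBC
import Pool.Agent.Helper26.GW.M_CSV
import Pool.Agent.Helper26.GW.M_MWL
import Pool.Agent.Helper27.GW.TopS
import Pool.Agent.Helper38.GW.M_SMD
import Pool.Agent.Helper39.GW.M_ES2C
import Pool.Agent.Helper45.GW.M_HIW
import Pool.Agent.Helper45.GW.M_WNW
import Pool.Agent.Helper47.GW.M_HBI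
import Pool.Agent.Helper47.GW.M_NQC
import Pool.Agent.Helper63.GW.M_TTW
import Pool.Agent.Helper63.GW.M_WNC
import Pool.Agent.Helper65.GW.M_MEA8
import Pool.Agent.Helper67.GW.M_NFB
import Pool.Agent.Helper7.GW.M_TOW
import Pool.Agent.Helper70.GW.M_GME
import Pool.Agent.Helper70.GW.M_WPL
import Pool.Agent.Helper78.GW.M_CL1
import Pool.Agent.Helper78.GW.M_CL3
import Pool.Agent.Helper8.GW.M_FO4
import Pool.Agent.Helper8.GW.M_HB4
import Pool.Agent.Helper81.GW.M_SMW
import Pool.Agent.Helper93.GW.M_BKS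
import Pool.Agent.Helper93.GW.M_BKT
import Pool.Agent.Helper95.GW.M_TUW
import Pool.Agent.Helper99.GW.M_CL2

/-!
# Project GW: assembly
-/

set_option autoImplicit false

namespace Pool.Agent.Helper63.GW

open Pool.Agent.Helper23.GK
open Finset
open Pool.Agent.Helper48.BK (ex th Sx Apx)

namespace AllGW

/-! ### blocks -/

theorem bkb : StBkb := Pool.Agent.Helper17.GW.hBKB
theorem hbi : StHbi := Pool.Agent.Helper47.GW.hHBI
theorem hb4 : StHb4 := Pool.Agent.Helper8.GW.hHB4 hbi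
theorem fo4 : StFo4 := Pool.Agent.Helper8.GW.hFO4
theorem dec4 : StDec4 := Pool.Agent.Helper17.GW.hDEC4 hb4 fo4 bkb
theorem mea8 : StMea8 := Pool.Agent.Helper65.GW.hMEA8 bkb
theorem gme : StGme := Pool.Agent.Helper70.GW.hGME mea8 bkb
theorem mobc : StMobc := Pool.Agent.Helper17.GW.hMOBC_of AllGK.muk AllGK.per AllGK.rml
theorem es2c : StEs2c := Pool.Agent.Helper39.GW.hES2C_of AllGK.vin AllGK.ems AllGK.res
theorem bkt : StBkt := Pool.Agent.Helper93.GW.hBKT mobc es2c
theorem csv : StCsv := Pool.Agent.Helper26.GW.hCSV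
theorem bks : StBks := Pool.Agent.Helper93.GW.hBKS csv bkb
theorem smd : StSmd := Pool.Agent.Helper38.GW.hSMD
theorem smw : StSmw := Pool.Agent.Helper81.GW.hSMW smd bkb

/-! ### windows -/

theorem nfb : StNfb := Pool.Agent.Helper67.GW.hNFB
theorem nqp : StNqp := Pool.Agent.Helper14.GW.hNQP
theorem nqc : StNqc := Pool.Agent.Helper47.GW.hNQC nfb nqp
theorem wpl : StWpl := Pool.Agent.Helper70.GW.hWPL
theorem part : StPart := Pool.Agent.Helper14.GW.hPART
theorem cl1 : StCl1 := Pool.Agent.Helper78.GW.hCL1 bks bkb mea8 nfb nqp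
theorem cl2 : StCl2 := Pool.Agent.Helper99.GW.hCL2 bkt bkb mea8 gme nfb nqp
theorem mwl : StMwl := Pool.Agent.Helper26.GW.hMWL smw bks bkb
theorem cl3 : StCl3 := Pool.Agent.Helper78.GW.hCL3 mwl bkb mea8 nfb nqp
theorem tuw : StTuw := Pool.Agent.Helper95.GW.hTUW part cl1 cl2 cl3
theorem hiw : StHiw := Pool.Agent.Helper45.GW.hHIW dec4 tuw bkb nfb nqp nqc
theorem tow : StTow := Pool.Agent.Helper7.GW.hTOW hiw nfb nqp AllGK.low
theorem wnw : StWnw := Pool.Agent.Helper45.GW.hWNW tow wpl AllGK.sha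
theorem wnc : StWnc := hWNC wnw
theorem totw : Pool.Agent.Helper58.SU.StTotw := hTTW tow nfb

theorem winw : Pool.Agent.Helper27.GW.StWinW := by
  intro A B K ε hε
  obtain ⟨X0, h0⟩ := wnc A B K (min ε (1 / 20)) (lt_min hε (by norm_num)) (min_le_right _ _)
  refine ⟨max X0 1, ?_⟩
  intro X hX H hH hHX Z hZ1 hZ2 q u h hq hqL hh
  have hX1 : (1 : ℝ) ≤ X := by exact_mod_cast (le_trans (le_max_right _ _) hX)
  refine h0 X Z H q u h (le_trans (le_max_left _ _) hX) hZ1 hZ2 (le_trans ?_ hH) hHX hq hqL hh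
  apply Real.rpow_le_rpow_of_exponent_le hX1
  linarith [min_le_left ε (1 / 20 : ℝ)]

theorem final : Pool.Agent.Helper27.GW.StFinalS := Pool.Agent.Helper27.GW.finalS winw

end AllGW

end Pool.Agent.Helper63.GW
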