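import Pool.Agent.Helper23.GK.StG

/-!
# Project GW (MP_b454d1): Goldbach-Knjzek-Rivera in short intervals. Definitions.

Reused notation: `ex t = exp(2πit)`, `th n = log n` on primes, `ch t n = n^{-it}`, `IsW` (weights of
class `C^4` on `[0,1]`), `blk2` (dyadic blocks), `GA`, `GB`, `gw` (see `Helper23/GK`).
-/

set_option autoImplicit false

namespace Pool.Agent.Helper63.GW

open Finset ArithmeticFunction MeasureTheory
open Pool.Agent.Helper48.BK (ex th Sx Apx)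
open Pool.Agent.Helper2.MR (ch)
open Pool.Agent.Helper15.AB (IsW)
open Pool.Agent.Helper23.GK

/-! ### blocks -/

/-- the tent at `2^e` in the variable `log_2 n` -/
noncomputable def tnt (e n : ℕ) : ℝ := max 0 (1 - |Real.logb 2 n - e|)

open Classical in
/-- weights of the eight variables: `μ` on sharp dyadic blocks (`i < 4`), `log` on tents (`i = 4`),
tents (`i > 4`) -/
noncomputable def w0 (i : Fin 8) (e n : ℕ) : ℝ :=
  if (i : ℕ) < 4 then (if n ∈ blk2 e then ((moebius n : ℤ) : ℝ) else 0)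
  else if (i : ℕ) = 4 then tnt e n * Real.log n else tnt e n

/-- block polynomial of the `i`-th variable: `∑ w0 i e n χ(n) n^{-1-it}` -/
noncomputable def bk {q : ℕ} (χ : DirichletCharacter ℂ q) (i : Fin 8) (e : ℕ) (t : ℝ) : ℂ :=
  ∑ n ∈ Icc 1 (2 ^ (e + 1)), ((w0 i e n : ℝ) : ℂ) * χ (n : ZMod q) * ch t n / n

/-- product of the eight block polynomials -/
noncomputable def PP8 {q : ℕ} (χ : DirichletCharacter ℂ q) (e : Fin 8 → ℕ) (t : ℝ) : ℂ :=
  ∏ i, bk χ i (e i) t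

/-- exponents of the blocks -/
def EW (u : ℕ) : Finset (Fin 8 → ℕ) :=
  (Fintype.piFinset (fun _ : Fin 8 => range (4 * u + 1))).filter
    (fun e => ∀ i : Fin 8, (i : ℕ) < 4 → e i ≤ u)

open Classical in
/-- coefficients of Heath-Brown's identity of order four: the `j`-th term uses the variables
`i < j` and `4 ≤ i < 4 + j`, the others are `1` (block `e i = 0`) -/
noncomputable def cf (e : Fin 8 → ℕ) : ℝ :=
  ∑ j ∈ Icc (1 : ℕ) 4, (-1 : ℝ) ^ (j + 1) * (Nat.choose 4 j : ℝ) *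
    (if (∀ i : Fin 8, ((j ≤ (i : ℕ) ∧ (i : ℕ) < 4) ∨ 4 + j ≤ (i : ℕ)) → e i = 0) then 1 else 0)

/-- the eightfold sum over one tuple of blocks -/
noncomputable def Te8 (g : ℕ → ℂ) (e : Fin 8 → ℕ) : ℂ :=
  ∑ n ∈ Fintype.piFinset (fun i : Fin 8 => Icc 1 (2 ^ (e i + 1))),
    (∏ i, ((w0 i (e i) (n i) : ℝ) : ℂ)) * g (∏ i, n i)

/-! ### the window functional -/

/-- nonnegative, measurable, bounded and integrable -/
def NF (F : ℝ → ℝ) : Prop :=
  Measurable F ∧ (∀ s, 0 ≤ F s) ∧ (∃ B : ℝ, ∀ s, F s ≤ B) ∧ Integrable F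

/-- `(1/W) ∫ (∫ F(s) e^{-((s-c)/W)²} ds)² dc` -/
noncomputable def NQ (W : ℝ) (F : ℝ → ℝ) : ℝ :=
  (1 / W) * ∫ c : ℝ, (∫ s : ℝ, F s * Real.exp (-((s - c) / W) ^ 2)) ^ 2

open Classical in
/-- `‖f‖` on the set `a ≤ |t| ≤ b`, zero elsewhere -/
noncomputable def rg (a b : ℝ) (f : ℝ → ℂ) (t : ℝ) : ℝ :=
  if a ≤ |t| ∧ |t| ≤ b then ‖f t‖ else 0

end Pool.Agent.Helper63.GW
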